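import Mathlib
import Pool.Agent.H97.RS3

set_option autoImplicit false

namespace Pool.Agent.Results.MP_ae2532_an.Counter

open Complex MeasureTheory Set

/-- The Euclidean unit ball of `ℂ²`. -/
def ball2 : Set (ℂ × ℂ) := {p | ‖p.1‖ ^ 2 + ‖p.2‖ ^ 2 < 1}

/-- `Ω` is biholomorphic to the unit ball. -/
def BiholBall (Ω : Set (ℂ × ℂ)) : Prop :=
  ∃ F G : ℂ × ℂ → ℂ × ℂ, DifferentiableOn ℂ F ball2 ∧ DifferentiableOn ℂ G Ω ∧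
    MapsTo F ball2 Ω ∧ MapsTo G Ω ball2 ∧ InvOn G F ball2 Ω

/-- The Wirtinger derivative `(∂_v + i ∂_{iv}) / 2`; for `v = e_j` it is `∂/∂z̄_j`. -/
noncomputable def dbar (φ : ℂ × ℂ → ℂ) (v p : ℂ × ℂ) : ℂ :=
  (fderiv ℝ φ p v + I * fderiv ℝ φ p (I • v)) / 2

/-- Smooth functions with compact support in `Ω`. -/
def Test (Ω : Set (ℂ × ℂ)) (φ : ℂ × ℂ → ℂ) : Prop :=
  ContDiff ℝ (⊤ : ℕ∞) φ ∧ HasCompactSupport φ ∧ tsupport φ ⊆ Ω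

/-- `f₁ dz̄₁ + f₂ dz̄₂` is closed in the sense of distributions on `Ω`. -/
def Closed (Ω : Set (ℂ × ℂ)) (f₁ f₂ : ℂ × ℂ → ℂ) : Prop :=
  ∀ φ, Test Ω φ → ∫ p in Ω, f₁ p * dbar φ (0, 1) p = ∫ p in Ω, f₂ p * dbar φ (1, 0) p

/-- `∂u/∂z̄_j = f_j`, `j = 1, 2`, in the sense of distributions on `Ω`. -/
def Solves (Ω : Set (ℂ × ℂ)) (u f₁ f₂ : ℂ × ℂ → ℂ) : Prop :=
  ∀ φ, Test Ω φ → ∫ p in Ω, u p * dbar φ (1, 0) p = -∫ p in Ω, f₁ p * φ p ∧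
    ∫ p in Ω, u p * dbar φ (0, 1) p = -∫ p in Ω, f₂ p * φ p

/-- Uniform estimates on `Ω`. -/
def UniformEst (Ω : Set (ℂ × ℂ)) : Prop :=
  ∃ C : ℝ, ∀ (f₁ f₂ : ℂ × ℂ → ℂ) (N : ℝ), AEStronglyMeasurable f₁ (volume.restrict Ω) →
    AEStronglyMeasurable f₂ (volume.restrict Ω) →
    (∀ᵐ p ∂volume.restrict Ω, √(‖f₁ p‖ ^ 2 + ‖f₂ p‖ ^ 2) ≤ N) → Closed Ω f₁ f₂ →
    ∃ u : ℂ × ℂ → ℂ, AEStronglyMeasurable u (volume.restrict Ω) ∧ Solves Ω u f₁ f₂ ∧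
      ∀ᵐ p ∂volume.restrict Ω, ‖u p‖ ≤ C * N

theorem result : ∃ Ω : Set (ℂ × ℂ), IsOpen Ω ∧ Bornology.IsBounded Ω ∧ BiholBall Ω ∧
    ¬ UniformEst Ω := by
  obtain ⟨Ω, hΩ, hb, hF, H⟩ := Pool.Agent.H97.RS.main
  refine ⟨Ω, hΩ, hb, hF, ?_⟩
  rintro ⟨C, hC⟩
  obtain ⟨f1, f2, s1, s2, bd, cl, no⟩ := H C
  obtain ⟨u, hu, hs, huC⟩ := hC f1 f2 1 (s1.continuousOn.aestronglyMeasurable hΩ.measurableSet)
    (s2.continuousOn.aestronglyMeasurable hΩ.measurableSet)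
    (ae_restrict_of_forall_mem hΩ.measurableSet fun p hp => Real.sqrt_le_one.2 (bd p hp)) cl
  exact no u hu (fun φ h => (hs φ h).1) (fun φ h => (hs φ h).2) (by simpa using huC)

end Pool.Agent.Results.MP_ae2532_an.Counter
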